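import Pool.Agent.Helper14.GS.StD

/-! MODULE D4 of project GS (helper14): zero estimate with multiplicities. -/

set_option autoImplicit false

namespace Pool.Agent.Helper47.GS

open Pool.Agent.Helper14.GS Pool.Agent.Helper10.EP Polynomial Finset

/-- determinant of polynomials of degree at most `n`: top coefficient -/
theorem D4_coeff_det {ι : Type*} [Fintype ι] [DecidableEq ι] (M : Matrix ι ι ℝ[X]) (n : ℕ)
    (h : ∀ i j, (M i j).natDegree ≤ n) :
    M.det.coeff (Fintype.card ι * n) = (Matrix.of fun i j => (M i j).coeff n).det := by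
  rw [Matrix.det_apply, Matrix.det_apply, finsetSum_coeff]
  refine Finset.sum_congr rfl fun σ _ => ?_
  have h1 : (∏ i, M (σ i) i).coeff (Fintype.card ι * n) = ∏ i, (M (σ i) i).coeff n := by
    have := coeff_prod_of_natDegree_le (s := Finset.univ) (fun i => M (σ i) i) n
      (fun i _ => h _ _)
    rwa [Finset.card_univ] at this
  rcases Int.units_eq_one_or (Equiv.Perm.sign σ) with hs | hs <;> simp [hs, h1]

theorem D4_natDegree_det {ι : Type*} [Fintype ι] [DecidableEq ι] (M : Matrix ι ι ℝ[X]) (n : ℕ)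
    (h : ∀ i j, (M i j).natDegree ≤ n) : M.det.natDegree ≤ Fintype.card ι * n := by
  rw [Matrix.det_apply]
  refine natDegree_sum_le_of_forall_le _ _ fun σ _ => ?_
  have h1 : (∏ i, M (σ i) i).natDegree ≤ Fintype.card ι * n := by
    refine (natDegree_prod_le _ _).trans ?_
    refine (Finset.sum_le_card_nsmul _ _ n fun i _ => h _ _).trans ?_
    rw [Finset.card_univ, smul_eq_mul]
  rcases Int.units_eq_one_or (Equiv.Perm.sign σ) with hs | hs <;> simp [hs, h1]

theorem D4_sum (T : ℕ) : ∀ n : ℕ, n ≤ T →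
    2 * ((∑ c ∈ Finset.range n, (T - c) : ℕ) : ℤ) = n * (2 * T - n + 1) := by
  intro n
  induction n with
  | zero => simp
  | succ n ih =>
    intro hn
    rw [Finset.sum_range_succ]
    have h1 : (((∑ c ∈ Finset.range n, (T - c)) + (T - n) : ℕ) : ℤ) =
        ((∑ c ∈ Finset.range n, (T - c) : ℕ) : ℤ) + (T - n) := by
      rw [Nat.cast_add, Nat.cast_sub (by omega)]
    rw [h1, mul_add, ih (by omega)]
    push_cast
    ring

theorem D4_tau (T n : ℕ) : (n ≤ T → n * T ≤ 2 * ∑ c ∈ Finset.range n, (T - c)) ∧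
    (T ≤ n → T ^ 2 ≤ 2 * ∑ c ∈ Finset.range n, (T - c)) := by
  constructor
  · intro h
    have h1 := D4_sum T n h
    zify
    have h2 : ((n : ℤ)) ≤ T := by exact_mod_cast h
    have h3 : (2 : ℤ) * ∑ c ∈ Finset.range n, ((T - c : ℕ) : ℤ) = n * (2 * T - n + 1) := by
      rw [← h1]; push_cast; rfl
    rw [h3]
    have h4 : (0 : ℤ) ≤ n := Int.natCast_nonneg n
    nlinarith
  · intro h
    have h1 := D4_sum T T le_rfl
    have h2 : ∑ c ∈ Finset.range T, (T - c) ≤ ∑ c ∈ Finset.range n, (T - c) :=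
      Finset.sum_le_sum_of_subset (Finset.range_mono h)
    have h3 : T ^ 2 ≤ 2 * ∑ c ∈ Finset.range T, (T - c) := by
      zify
      have h4 : (2 : ℤ) * ∑ c ∈ Finset.range T, ((T - c : ℕ) : ℤ) = T * (2 * T - T + 1) := by
        rw [← h1]; push_cast; rfl
      rw [h4]
      have h5 : (0 : ℤ) ≤ T := Int.natCast_nonneg T
      nlinarith
    omega

/-- all polynomials nonzero: impossible -/
theorem D4_core (n L₀ S T : ℕ) (ω x : Fin n → ℝ) (Q : Fin n → ℝ[X]) (hn : 1 ≤ n)
    (hnS : n ≤ S) (h1 : 2 * n * L₀ ≤ (S + 1 - n) * T ^ 2) (h2 : 2 * L₀ ≤ (S + 1 - n) * T)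
    (hω : Function.Injective ω) (hx : Function.Injective x) (hx0 : ∀ i, 0 < x i)
    (hdeg : ∀ i, (Q i).natDegree < L₀)
    (hz : ∀ s t₀ t₁ : ℕ, s < S → t₀ + t₁ < T →
      ∑ i, (hasseDeriv t₀ (Q i)).eval (s : ℝ) * ω i ^ t₁ * x i ^ s = 0)
    (hQ : ∀ i, Q i ≠ 0) : False := by
  classical
  have hL : 1 ≤ L₀ := by
    have := hdeg ⟨0, hn⟩
    omega
  set M : Matrix (Fin n) (Fin n) ℝ[X] := Matrix.of fun e i =>
    C (x i ^ (e : ℕ)) * taylor ((e : ℕ) : ℝ) (Q i) with hM
  set Mx : Matrix (Fin n) (Fin n) ℝ[X] := Matrix.of fun e i =>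
    X ^ (L₀ - 1 - (Q i).natDegree) * M e i with hMx
  have hMd : ∀ e i, (Mx e i).natDegree ≤ L₀ - 1 := by
    intro e i
    simp only [hMx, hM, Matrix.of_apply]
    refine natDegree_mul_le.trans ?_
    have a1 : (X ^ (L₀ - 1 - (Q i).natDegree) : ℝ[X]).natDegree = L₀ - 1 - (Q i).natDegree :=
      natDegree_X_pow _
    have a2 : (C (x i ^ (e : ℕ)) * taylor ((e : ℕ) : ℝ) (Q i)).natDegree ≤ (Q i).natDegree := by
      refine (natDegree_C_mul_le _ _).trans ?_
      rw [natDegree_taylor]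
    have := hdeg i
    omega
  have hMc : ∀ e i, (Mx e i).coeff (L₀ - 1) = (Q i).leadingCoeff * x i ^ (e : ℕ) := by
    intro e i
    simp only [hMx, hM, Matrix.of_apply]
    have a1 : L₀ - 1 = (Q i).natDegree + (L₀ - 1 - (Q i).natDegree) := by
      have := hdeg i
      omega
    have a2 : (X ^ (L₀ - 1 - (Q i).natDegree) * (C (x i ^ (e : ℕ)) *
        taylor ((e : ℕ) : ℝ) (Q i))).coeff (L₀ - 1) =
        (C (x i ^ (e : ℕ)) * taylor ((e : ℕ) : ℝ) (Q i)).coeff (Q i).natDegree := by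
      generalize L₀ - 1 - (Q i).natDegree = m at a1 ⊢
      rw [a1, coeff_X_pow_mul]
    rw [a2, coeff_C_mul, coeff_taylor_natDegree]
    ring
  have hdetx : Mx.det = (∏ i, X ^ (L₀ - 1 - (Q i).natDegree)) * M.det := by
    rw [hMx]
    exact Matrix.det_mul_row _ _
  have hdet : Mx.det ≠ 0 := by
    intro h0
    have a1 := D4_coeff_det Mx (L₀ - 1) hMd
    rw [h0, coeff_zero] at a1
    have a2 : (Matrix.of fun e i => (Mx e i).coeff (L₀ - 1)) =
        Matrix.of fun e i => (Q i).leadingCoeff * (Matrix.vandermonde x).transpose e i := by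
      ext e i
      simp only [Matrix.of_apply, hMc, Matrix.transpose_apply, Matrix.vandermonde_apply]
    rw [a2, Matrix.det_mul_row, Matrix.det_transpose] at a1
    have a3 : (Matrix.vandermonde x).det ≠ 0 := Matrix.det_vandermonde_ne_zero_iff.2 hx
    have a4 : (∏ i, (Q i).leadingCoeff) ≠ 0 :=
      Finset.prod_ne_zero_iff.2 fun i _ => leadingCoeff_ne_zero.2 (hQ i)
    exact mul_ne_zero a4 a3 a1.symm
  set τ : ℕ := ∑ c ∈ Finset.range n, (T - c) with hτ
  -- divisibility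
  have hdiv : ∀ s ∈ Finset.range (S + 1 - n), (X - C (s : ℝ)) ^ τ ∣ Mx.det := by
    intro s hs
    rw [Finset.mem_range] at hs
    rw [hdetx]
    apply Dvd.dvd.mul_left
    set V : Matrix (Fin n) (Fin n) ℝ := Matrix.of fun i c =>
      x i ^ s * (Matrix.vandermonde ω) i c with hV
    have hVdet : V.det ≠ 0 := by
      rw [hV, Matrix.det_mul_column]
      exact mul_ne_zero (Finset.prod_ne_zero_iff.2 fun i _ => pow_ne_zero _ (hx0 i).ne')
        (Matrix.det_vandermonde_ne_zero_iff.2 hω)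
    have hcol : ∀ e c : Fin n, (X - C (s : ℝ)) ^ (T - (c : ℕ)) ∣ (M * V.map C) e c := by
      intro e c
      rw [X_sub_C_pow_dvd_iff, X_pow_dvd_iff]
      intro d hd
      rw [← taylor_apply]
      have b1 : (M * V.map C) e c = ∑ i, (x i ^ (e : ℕ) * V i c) • taylor ((e : ℕ) : ℝ) (Q i) := by
        rw [Matrix.mul_apply]
        refine Finset.sum_congr rfl fun i _ => ?_
        rw [hM, Matrix.of_apply, Matrix.map_apply, smul_eq_C_mul, C_mul]
        ring
      rw [b1, map_sum, finsetSum_coeff]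
      have b2 := hz (s + e) d c (by have := e.2; omega) (by omega)
      refine Eq.trans (Finset.sum_congr rfl fun i _ => ?_) b2
      rw [map_smul, coeff_smul, taylor_taylor, taylor_coeff, smul_eq_mul, hV, Matrix.of_apply,
        Matrix.vandermonde_apply]
      push_cast
      rw [pow_add]
      ring
    choose R hR using hcol
    have c1 : (M * V.map C).det = (∏ c : Fin n, (X - C (s : ℝ)) ^ (T - (c : ℕ))) *
        (Matrix.of R).det := by
      have c2 : M * V.map C = Matrix.of fun (e c : Fin n) =>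
          (X - C (s : ℝ)) ^ (T - (c : ℕ)) * (Matrix.of R) e c := by
        ext1 e c
        rw [Matrix.of_apply, Matrix.of_apply]
        exact hR e c
      rw [c2, Matrix.det_mul_row]
    have c3 : (∏ c : Fin n, (X - C (s : ℝ)) ^ (T - (c : ℕ))) = (X - C (s : ℝ)) ^ τ := by
      rw [Finset.prod_pow_eq_pow_sum, hτ, Finset.sum_range]
    have c4 : (M * V.map C).det = C V.det * M.det := by
      rw [Matrix.det_mul, mul_comm]
      congr 1
      exact (RingHom.map_det (C : ℝ →+* ℝ[X]) V).symm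
    have c5 : M.det = C (V.det)⁻¹ * (C V.det * M.det) := by
      rw [← mul_assoc, ← C_mul, inv_mul_cancel₀ hVdet, C_1, one_mul]
    rw [c5, ← c4, c1, c3]
    exact Dvd.dvd.mul_left (Dvd.intro _ rfl) _
  have hprod : (∏ s ∈ Finset.range (S + 1 - n), (X - C (s : ℝ)) ^ τ) ∣ Mx.det := by
    apply Finset.prod_dvd_of_coprime _ hdiv
    intro s _ s' _ hss'
    apply IsCoprime.pow
    exact isCoprime_X_sub_C_of_isUnit_sub (sub_ne_zero_of_ne (by exact_mod_cast hss')).isUnit
  have hdg := natDegree_le_of_dvd hprod hdet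
  have hdg2 : (∏ s ∈ Finset.range (S + 1 - n), (X - C (s : ℝ)) ^ τ).natDegree =
      (S + 1 - n) * τ := by
    rw [natDegree_prod_of_monic _ _ (fun s _ => (monic_X_sub_C _).pow _)]
    simp only [natDegree_pow, natDegree_X_sub_C, mul_one, Finset.sum_const, Finset.card_range,
      smul_eq_mul]
  have hdg3 := D4_natDegree_det Mx (L₀ - 1) hMd
  rw [Fintype.card_fin] at hdg3
  rw [hdg2] at hdg
  have hfin : n * L₀ ≤ (S + 1 - n) * τ := by
    rcases le_total T n with h | h
    · have e1 := (D4_tau T n).2 h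
      have e2 : (S + 1 - n) * T ^ 2 ≤ (S + 1 - n) * (2 * τ) := Nat.mul_le_mul_left _ e1
      have e3 : (S + 1 - n) * (2 * τ) = 2 * ((S + 1 - n) * τ) := by ring
      have e4 : 2 * n * L₀ = 2 * (n * L₀) := by ring
      omega
    · have e1 := (D4_tau T n).1 h
      have e2 : (S + 1 - n) * (n * T) ≤ (S + 1 - n) * (2 * τ) := Nat.mul_le_mul_left _ e1
      have e3 : (S + 1 - n) * (2 * τ) = 2 * ((S + 1 - n) * τ) := by ring
      have e4 : n * (2 * L₀) ≤ n * ((S + 1 - n) * T) := Nat.mul_le_mul_left _ h2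
      have e5 : n * ((S + 1 - n) * T) = (S + 1 - n) * (n * T) := by ring
      have e6 : n * (2 * L₀) = 2 * (n * L₀) := by ring
      omega
  have hlt : n * (L₀ - 1) < n * L₀ := Nat.mul_lt_mul_of_pos_left (by omega) (by omega)
  omega

theorem D4 : StD4 := by
  classical
  intro ι _ _ N L₀ S T ω x Q hcard hT hNS h1 h2 hω hx hx0 hdeg hz
  by_contra hcon
  push Not at hcon
  obtain ⟨i₀, hi₀⟩ := hcon
  set n := Fintype.card {i // Q i ≠ 0} with hn
  have hn1 : 1 ≤ n := Fintype.card_pos_iff.2 ⟨⟨i₀, hi₀⟩⟩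
  have hnN : n ≤ N := by
    rw [← hcard]
    exact Fintype.card_subtype_le _
  let e : Fin n ≃ {i // Q i ≠ 0} := (Fintype.equivFin _).symm
  refine D4_core n L₀ S T (fun k => ω (e k)) (fun k => x (e k)) (fun k => Q (e k)) hn1
    (hnN.trans hNS) ?_ ?_ (fun a b h => e.injective (Subtype.ext (hω h)))
    (fun a b h => e.injective (Subtype.ext (hx h))) (fun k => hx0 _) (fun k => hdeg _) ?_
    (fun k => (e k).2)
  · calc 2 * n * L₀ ≤ 2 * N * L₀ := Nat.mul_le_mul_right _ (Nat.mul_le_mul_left _ hnN)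
      _ ≤ (S + 1 - N) * T ^ 2 := h1
      _ ≤ (S + 1 - n) * T ^ 2 := Nat.mul_le_mul_right _ (by omega)
  · exact h2.trans (Nat.mul_le_mul_right _ (by omega))
  · intro s t₀ t₁ hs ht
    have h3 := hz s t₀ t₁ hs ht
    have h4 : ∑ k : Fin n, (hasseDeriv t₀ (Q (e k))).eval (s : ℝ) * ω (e k) ^ t₁ * x (e k) ^ s =
        ∑ i : {i // Q i ≠ 0}, (hasseDeriv t₀ (Q i)).eval (s : ℝ) * ω i ^ t₁ * x i ^ s :=
      Equiv.sum_comp e (fun i : {i // Q i ≠ 0} =>
        (hasseDeriv t₀ (Q i)).eval (s : ℝ) * ω i ^ t₁ * x i ^ s)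
    rw [h4, ← h3]
    have h5 : ∑ i : {i // Q i ≠ 0}, (hasseDeriv t₀ (Q i)).eval (s : ℝ) * ω i ^ t₁ * x i ^ s =
        ∑ i ∈ Finset.univ.filter (fun i => Q i ≠ 0),
          (hasseDeriv t₀ (Q i)).eval (s : ℝ) * ω i ^ t₁ * x i ^ s :=
      (Finset.sum_subtype (Finset.univ.filter (fun i => Q i ≠ 0)) (by simp)
        (fun i => (hasseDeriv t₀ (Q i)).eval (s : ℝ) * ω i ^ t₁ * x i ^ s)).symm
    rw [h5]
    apply Finset.sum_subset (Finset.filter_subset _ _)
    intro i _ hi
    have h6 : Q i = 0 := by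
      by_contra hne
      exact hi (Finset.mem_filter.2 ⟨Finset.mem_univ _, hne⟩)
    rw [h6]
    simp

end Pool.Agent.Helper47.GS
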